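import Pool.Agent.MP_9c491c_pr.H65.Chain
import Pool.Agent.MP_9c491c_pr.H65.Tail

open MeasureTheory ProbabilityTheory Finset

namespace Pool.Agent.Results.MP_9c491c_pr.GroupRequestOptimal

open Pool.Agent.MP_9c491c_pr.H65

/-- For independent standard exponential variables `X i`, every request vector `a` with entries
in `1, ..., k` and every `t` in `(0, 1]`, the group succeeds with probability at most
`1 - exp (-t)`. -/
theorem result {Ω : Type*} [MeasurableSpace Ω] (P : Measure Ω) [IsProbabilityMeasure P]
    (m k : ℕ) (hm : 1 ≤ m) (hmk : m ≤ k) (t : ℝ) (ht0 : 0 < t) (ht1 : t ≤ 1)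
    (X : Fin m → Ω → ℝ) (hXm : ∀ i, Measurable (X i)) (hind : iIndepFun X P)
    (hexp : ∀ i, ∀ s : ℝ, 0 ≤ s → P.real {ω | s < X i ω} = Real.exp (-s))
    (a : Fin m → ℕ) (ha : ∀ i, 1 ≤ a i ∧ a i ≤ k) :
    P.real {ω | m ≤ ∑ i, if (a i : ℝ) * X i ω < t then a i else 0} ≤ 1 - Real.exp (-t) := by
  classical
  have ha1 : ∀ i, (1 : ℝ) ≤ a i := fun i => by exact_mod_cast (ha i).1
  have hx0 : ∀ i, 0 < t / (a i : ℝ) := fun i => div_pos ht0 (by linarith [ha1 i])
  set p : Fin m → ℝ := fun i => 1 - Real.exp (-(t / a i)) with hp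
  have h0 : ∀ i, 0 < p i := fun i => by
    have : Real.exp (-(t / a i)) < 1 := by
      rw [Real.exp_lt_one_iff]; linarith [hx0 i]
    simp only [hp]; linarith
  have h1 : ∀ i, p i < 1 := fun i => by
    have := Real.exp_pos (-(t / a i))
    simp only [hp]; linarith
  set U : Finset (Fin m) → Prop := fun S => m ≤ ∑ i ∈ S, a i with hU
  set B : Finset (Fin m) → Fin m → Set ℝ := fun S i =>
    if i ∈ S then Set.Iic (t / a i) else Set.Ioi (t / a i) with hB
  have hBm : ∀ S i, MeasurableSet (B S i) := by
    intro S i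
    simp only [hB]
    split_ifs
    · exact measurableSet_Iic
    · exact measurableSet_Ioi
  have hIoi : ∀ i, P.real (X i ⁻¹' Set.Ioi (t / a i)) = 1 - p i := by
    intro i
    have := hexp i _ (hx0 i).le
    simp only [hp, sub_sub_cancel]
    exact this
  have hIic : ∀ i, P.real (X i ⁻¹' Set.Iic (t / a i)) = p i := by
    intro i
    have e : X i ⁻¹' Set.Iic (t / a i) = (X i ⁻¹' Set.Ioi (t / a i))ᶜ := by
      ext ω; simp
    rw [e, probReal_compl_eq_one_sub (hXm i measurableSet_Ioi), hIoi]
    ring
  have hA : ∀ S, P.real (⋂ i ∈ (univ : Finset (Fin m)), X i ⁻¹' B S i)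
      = (∏ i ∈ S, p i) * ∏ i ∈ univ \ S, (1 - p i) := by
    intro S
    have := hind.measure_inter_preimage_eq_mul univ (sets := B S) (fun i _ => hBm S i)
    rw [Measure.real, this, ENNReal.toReal_prod]
    have e : ∀ i ∈ (univ : Finset (Fin m)), (P (X i ⁻¹' B S i)).toReal
        = if i ∈ S then p i else 1 - p i := by
      intro i _
      simp only [hB]
      split_ifs
      · exact hIic i
      · exact hIoi i
    rw [prod_congr rfl e, prod_ite]
    congr 1
    · apply prod_congr _ (fun _ _ => rfl)
      ext i; simp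
    · apply prod_congr _ (fun _ _ => rfl)
      ext i; simp
  have hsub : {ω | m ≤ ∑ i, if (a i : ℝ) * X i ω < t then a i else 0}
      ⊆ ⋃ S ∈ (univ : Finset (Fin m)).powerset.filter U,
        ⋂ i ∈ (univ : Finset (Fin m)), X i ⁻¹' B S i := by
    intro ω hω
    simp only [Set.mem_setOf_eq] at hω
    simp only [Set.mem_iUnion]
    refine ⟨univ.filter (fun i => X i ω ≤ t / a i), ?_, ?_⟩
    · simp only [mem_filter, mem_powerset, subset_univ, true_and, hU]
      refine hω.trans ?_
      rw [sum_filter]
      apply sum_le_sum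
      intro i _
      by_cases h : (a i : ℝ) * X i ω < t
      · have : X i ω ≤ t / a i := by
          rw [le_div_iff₀ (by linarith [ha1 i])]
          linarith
        simp [h, this]
      · simp [h]
    · simp only [Set.mem_iInter, Set.mem_preimage, hB, mem_filter, mem_univ, true_and]
      intro i _
      split_ifs with h
      · exact h
      · exact not_le.1 h
  have hle := (measureReal_mono (μ := P) hsub (measure_ne_top _ _)).trans (measureReal_biUnion_finset_le _ _)
  refine hle.trans ?_
  have hfin := prodE_upset_le h0 h1 (univ : Finset (Fin m)) U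
    (fun S e hS => le_trans hS (sum_le_sum_of_subset (subset_insert e S)))
    (by simp [hU]; omega) (1 - Real.exp (-t))
    (by
      have : Real.exp (-t) ≤ 1 := by
        rw [Real.exp_le_one_iff]; linarith
      linarith)
    (fun S hS => by
      rw [card_univ, Fintype.card_fin]
      refine K_le_of_sum (a := fun i => (a i : ℝ)) ha1 ht0 ht1 hm S ?_
      exact_mod_cast hS)
  refine le_trans (le_of_eq ?_) hfin
  unfold prodE
  rw [sum_filter]
  apply sum_congr rfl
  intro S _
  rw [hA]
  by_cases hS : m ≤ ∑ i ∈ S, a i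
  · simp [hU, hS]
  · simp [hU, hS]

end Pool.Agent.Results.MP_9c491c_pr.GroupRequestOptimal
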